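import Pool.Agent.Helper59.PB.Coup
import Pool.Agent.Helper59.PB.Iid

set_option autoImplicit false
set_option linter.unusedSectionVars false

/-!
# Block G1 for general laws: disorder is relevant on a finite set of edges, weights cut off at `B`

The constant depends only on the law.
-/

namespace Pool.Agent.Helper59.PB

open MeasureTheory ProbabilityTheory Set
open Pool.Agent.Helper79.GR Pool.Agent.Helper79.PG Pool.Agent.Helper33.PG Pool.Agent.Helper59.PG

variable {Ω : Type*} [MeasurableSpace Ω] {d : ℕ} {P : Measure Ω} {X : Edge d → Ω → ℝ}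
  {ν : Measure ℝ} {B B₀ : ℝ}

theorem exists_bd (hB : 0 < B) (hBB : B ≤ B₀) (R : Finset (Edge d)) {x : R → ℝ}
    (hx : ∀ i, x i ∈ Ioc 0 B) : ∃ a, Bd a B₀ (ext B₀ R x) := by
  have h1 : ∃ a, 0 < a ∧ a ≤ B ∧ ∀ i, a ≤ x i := by
    rcases isEmpty_or_nonempty R with hR | hR
    · exact ⟨B, hB, le_rfl, fun i => isEmptyElim i⟩
    · obtain ⟨i₀, hi₀⟩ := Finite.exists_min x
      exact ⟨x i₀, (hx i₀).1, (hx i₀).2, hi₀⟩
  obtain ⟨a, ha, haB, hax⟩ := h1
  refine ⟨a, ha, fun e => ?_⟩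
  by_cases h : e ∈ R
  · rw [ext_mem B₀ R x h]
    exact ⟨hax _, (hx _).2.trans hBB⟩
  · rw [ext_notMem B₀ R x h]
    exact ⟨haB.trans hBB, le_rfl⟩

theorem T_ext_bd (hB : 0 < B) (hBB : B ≤ B₀) (R : Finset (Edge d)) {x : R → ℝ}
    (hx : ∀ i, x i ∈ Ioc 0 B) (q : V d) :
    0 ≤ T (ext B₀ R x) 0 q ∧ T (ext B₀ R x) 0 q ≤ B₀ * n1 q := by
  obtain ⟨a, ha⟩ := exists_bd hB hBB R hx
  have h1 := le_T ha 0 q
  have h2 := T_le ha 0 q
  rw [sub_zero] at h1 h2
  exact ⟨(mul_nonneg ha.1.le (n1_nonneg _)).trans h1, h2⟩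

open Classical in
/-- the edges of a geodesic in `R` -/
theorem cnt0 (hB : 0 < B) (hBB : B ≤ B₀) (R : Finset (Edge d)) (q : V d) {x : R → ℝ}
    (hx : ∀ i, x i ∈ Ioc 0 B) :
    ∃ w : List (St d), pos 0 w = q ∧ (eds 0 w).Nodup ∧ n1 q ≤ w.length ∧
      B₀ * (w.length - ((Finset.univ.filter fun i : R => (i : Edge d) ∈ eds 0 w).card : ℝ)) ≤
        T (ext B₀ R x) 0 q ∧
      ∀ x' : R → ℝ, (∀ i, x' i ∈ Ioc 0 B) → T (ext B₀ R x') 0 q ≤
        T (ext B₀ R x) 0 q +
          ∑ i ∈ Finset.univ.filter (fun i : R => (i : Edge d) ∈ eds 0 w), (x' i - x i) := by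
  obtain ⟨a, ha⟩ := exists_bd hB hBB R hx
  obtain ⟨w, hw, hcw⟩ := exists_min ha 0 q
  have hg : Geo (ext B₀ R x) 0 w := by
    rw [geo_iff ha, hw]
    exact hcw
  have hn := hg.nodup ha
  have hcard : (R.filter fun e => e ∈ eds 0 w).card =
      (Finset.univ.filter fun i : R => (i : Edge d) ∈ eds 0 w).card := by
    rw [← Finset.card_map (Function.Embedding.subtype _)
      (s := Finset.univ.filter fun i : R => (i : Edge d) ∈ eds 0 w)]
    congr 1
    ext e
    rw [Finset.mem_filter, Finset.mem_map]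
    constructor
    · rintro ⟨h1, h2⟩
      exact ⟨⟨e, h1⟩, Finset.mem_filter.2 ⟨Finset.mem_univ _, h2⟩, rfl⟩
    · rintro ⟨i, hi, rfl⟩
      exact ⟨i.2, (Finset.mem_filter.1 hi).2⟩
  have hcost : ∀ y : R → ℝ, cost (ext B₀ R y) 0 w =
      ∑ i ∈ Finset.univ.filter (fun i : R => (i : Edge d) ∈ eds 0 w), y i +
        B₀ * (w.length - ((Finset.univ.filter fun i : R => (i : Edge d) ∈ eds 0 w).card : ℝ)) := by
    intro y
    have h1 := cost_cut B₀ R (ext B₀ R y) 0 w hn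
    rw [cut_ext] at h1
    rw [h1, hcard]
    congr 1
    rw [Finset.sum_filter, ← Finset.sum_coe_sort R, Finset.sum_filter]
    refine Finset.sum_congr rfl fun i _ => ?_
    rw [ext_mem B₀ R y i.2]
  refine ⟨w, hw, hn, ?_, ?_, ?_⟩
  · have := n1_pos_sub_le 0 w
    rwa [hw, sub_zero] at this
  · rw [← hcw, hcost x]
    have : 0 ≤ ∑ i ∈ Finset.univ.filter (fun i : R => (i : Edge d) ∈ eds 0 w), x i :=
      Finset.sum_nonneg fun i _ => (hx i).1.le
    linarith
  · intro x' hx'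
    obtain ⟨a', ha'⟩ := exists_bd hB hBB R hx'
    have h1 := T_le_cost ha' hw
    rw [hcost x'] at h1
    rw [← hcw, hcost x, Finset.sum_sub_distrib]
    linarith

/-- the mean of the passage time drops -/
theorem drop0 [IsProbabilityMeasure ν] (hB : 0 < B) (hBB : B ≤ B₀)
    (hν : ν (Ioc 0 B)ᶜ = 0) {α β : ℝ} {n₀ : ℕ} (hαβ : α < β) (hβB : β ≤ B)
    (hα : 0 < ν.real (Ioc 0 α)) (hβ : 0 < ν.real (Ici β)) (R : Finset (Edge d))
    (hbad : (Measure.pi fun _ : R => ν) (badR R β (1 / 4) n₀) ≤ ENNReal.ofReal (1 / 8))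
    (q : V d) (hq : (n₀ : ℝ) ≤ n1 q)
    (hT : ∫ x, T (ext B₀ R x) 0 q ∂(Measure.pi fun _ : R => ν) ≤ B₀ / 2 * n1 q)
    {ε : ℝ} (hε : 0 ≤ ε) (hεβ : ε ≤ ν.real (Ici β)) :
    ∫ x, T (ext B₀ R x) 0 q
        ∂(Measure.pi fun _ : R => wd ν (dn ν (Ioc 0 α) (Ici β) ε)) ≤
      ∫ x, T (ext B₀ R x) 0 q ∂(Measure.pi fun _ : R => ν) -
        ε * (β - α) / 8 * n1 q := by
  classical
  have hB₀ : 0 < B₀ := hB.trans_le hBB
  have hn1 : 0 ≤ n1 q := n1_nonneg q
  set Q := Measure.pi fun _ : R => ν with hQ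
  let G : (R → ℝ) → ℝ := fun x => T (ext B₀ R x) 0 q
  have hGm : Measurable G := (measurable_T_cfg 0 q).comp (measurable_ext _ R)
  let bad := badR R β (1 / 4) n₀
  have hbadm : MeasurableSet bad := measurable_badR R β (1 / 4) n₀
  let N : (R → ℝ) → ℝ := fun x =>
    3 / 4 * n1 q - 1 / B₀ * G x - bad.indicator (fun _ => n1 q) x
  have hNm : Measurable N :=
    (measurable_const.sub (hGm.const_mul _)).sub (measurable_const.indicator hbadm)
  have hG0 : ∀ x : R → ℝ, (∀ i, x i ∈ Ioc 0 B) → 0 ≤ G x ∧ G x ≤ B₀ * n1 q :=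
    fun x hx => T_ext_bd hB hBB R hx q
  have hK : 0 ≤ 1 / B₀ := by positivity
  have hcnt := fun (x : R → ℝ) (hx : ∀ i, x i ∈ Ioc 0 B) => cnt0 hB hBB R q hx
  choose! w hw using hcnt
  let wR : (R → ℝ) → Finset R := fun x => Finset.univ.filter fun i : R => (i : Edge d) ∈ eds 0 (w x)
  have hc0 : (-1 : ℝ) ∉ Ioc 0 α := fun h => by
    have := h.1
    linarith
  have key := coupling (ν := ν) (c0 := -1) (D := Ioc 0 B) (α := α) (β := β) (A := Ioc 0 α)
    (U := Ici β) (ε := ε) hc0 measurableSet_Ioc measurableSet_Ici ?_ hα hβ hε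
    hεβ (fun t ht => ht.2) (fun t ht => ht) hαβ.le
    (Ioc_subset_Ioc_right (hαβ.le.trans hβB)) hν
    (G := G) (N := N) hGm hNm (C := B₀ * n1 q + n1 q + 1 / B₀ * (B₀ * n1 q) + n1 q) ?_ ?_ wR ?_ ?_
  rotate_left
  · rw [Set.disjoint_left]
    rintro t ⟨-, ht⟩ ht'
    have : β ≤ t := ht'
    linarith
  · intro x hx
    have h1 := hG0 x hx
    rw [abs_of_nonneg h1.1]
    have h2 : 0 ≤ 1 / B₀ * (B₀ * n1 q) := by positivity
    linarith
  · intro x hx
    have h1 := hG0 x hx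
    have h2 : 0 ≤ 1 / B₀ * G x := mul_nonneg hK h1.1
    have h3 : 1 / B₀ * G x ≤ 1 / B₀ * (B₀ * n1 q) := mul_le_mul_of_nonneg_left h1.2 hK
    have h4 : 0 ≤ bad.indicator (fun _ => n1 q) x ∧ bad.indicator (fun _ => n1 q) x ≤ n1 q := by
      by_cases hx' : x ∈ bad
      · rw [indicator_of_mem hx']
        exact ⟨hn1, le_rfl⟩
      · rw [indicator_of_notMem hx']
        exact ⟨le_rfl, hn1⟩
    have h5 : 0 ≤ B₀ * n1 q := by positivity
    show |3 / 4 * n1 q - 1 / B₀ * G x - bad.indicator (fun _ => n1 q) x| ≤ _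
    rw [abs_le]
    constructor
    · linarith [h4.2]
    · linarith [h4.1]
  · intro x x' hx hx'
    exact (hw x hx).2.2.2.2 x' hx'
  · intro x hx
    obtain ⟨h1, h2, h3, h4, h5⟩ := hw x hx
    have hGx : T (ext B₀ R x) 0 q = G x := rfl
    rw [hGx] at h4
    have h7 : (((wR x).filter fun i => x i ∈ Ici β).card : ℝ) +
        (((Finset.univ : Finset R).filter fun i : R => (i : Edge d) ∈ eds 0 (w x) ∧ ¬ β ≤ x i).card : ℝ) =
        ((wR x).card : ℝ) := by
      have h8 := Finset.card_filter_add_card_filter_not (s := wR x) (fun i => x i ∈ Ici β)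
      have h9 : (wR x).filter (fun i => ¬ x i ∈ Ici β) =
          (Finset.univ : Finset R).filter fun i : R => (i : Edge d) ∈ eds 0 (w x) ∧ ¬ β ≤ x i := by
        ext i
        simp [wR, Finset.mem_filter]
      rw [h9] at h8
      exact_mod_cast h8
    have h4' : B₀ * ((w x).length - ((wR x).card : ℝ)) ≤ G x := h4
    have hlen0 : (0 : ℝ) ≤ ((w x).length : ℝ) := Nat.cast_nonneg _
    by_cases hx' : x ∈ bad
    · have h8 : N x ≤ 0 := by
        show 3 / 4 * n1 q - 1 / B₀ * G x - bad.indicator (fun _ => n1 q) x ≤ 0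
        rw [indicator_of_mem hx']
        have := mul_nonneg hK (hG0 x hx).1
        linarith
      exact h8.trans (Nat.cast_nonneg _)
    · have h8 : N x = 3 / 4 * n1 q - 1 / B₀ * G x := by
        show 3 / 4 * n1 q - 1 / B₀ * G x - bad.indicator (fun _ => n1 q) x = _
        rw [indicator_of_notMem hx', sub_zero]
      have h9 : ((eds 0 (w x)).countP (fun e => decide (ext β R x e < β)) : ℝ) ≤
          1 / 4 * (w x).length := by
        by_contra hc
        push Not at hc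
        refine hx' ⟨w x, ?_, h2, hc⟩
        exact_mod_cast hq.trans h3
      have h10 : (((Finset.univ : Finset R).filter fun i : R =>
          (i : Edge d) ∈ eds 0 (w x) ∧ ¬ β ≤ x i).card : ℝ) ≤ 1 / 4 * (w x).length := by
        refine le_trans ?_ h9
        exact_mod_cast card_light R β x (eds 0 (w x))
      have h12 : ((w x).length : ℝ) - (wR x).card ≤ 1 / B₀ * G x := by
        rw [one_div_mul_eq_div, le_div_iff₀ hB₀]
        linarith
      have h13 : 3 / 4 * n1 q - 1 / B₀ * G x ≤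
          (((wR x).filter fun i => x i ∈ Ici β).card : ℝ) := by
        linarith
      rw [h8]
      convert h13
  -- the mean of `N`
  have hae : ∀ᵐ x ∂Q, ∀ i, x i ∈ Ioc 0 B := ae_set hν
  have hGi : Integrable G Q := by
    refine Integrable.of_bound hGm.aestronglyMeasurable (B₀ * n1 q) ?_
    filter_upwards [hae] with x hx
    rw [Real.norm_eq_abs, abs_of_nonneg (hG0 x hx).1]
    exact (hG0 x hx).2
  have hbi : Integrable (bad.indicator fun _ => n1 q) Q :=
    (integrable_const _).indicator hbadm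
  have hN1 : ∫ x, N x ∂Q = 3 / 4 * n1 q - 1 / B₀ * ∫ x, G x ∂Q - Q.real bad * n1 q := by
    have e1 : ∫ x, N x ∂Q = ∫ x, (3 / 4 * n1 q - 1 / B₀ * G x) ∂Q -
        ∫ x, bad.indicator (fun _ => n1 q) x ∂Q :=
      integral_sub ((integrable_const _).sub (hGi.const_mul _)) hbi
    rw [e1, integral_sub (integrable_const _) (hGi.const_mul _), integral_const, probReal_univ,
      one_smul, integral_const_mul, integral_indicator_const _ hbadm, smul_eq_mul]
  have hbadP : Q.real bad ≤ 1 / 8 :=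
    (ENNReal.le_ofReal_iff_toReal_le (measure_ne_top _ _) (by norm_num)).1 hbad
  have hNlow : 1 / 8 * n1 q ≤ ∫ x, N x ∂Q := by
    rw [hN1]
    have e1 := mul_le_mul_of_nonneg_left hT hK
    have e2 := mul_le_mul_of_nonneg_right hbadP hn1
    have e3 : ∫ x, G x ∂Q = ∫ x, T (ext B₀ R x) 0 q ∂Q := rfl
    have e4 : 1 / B₀ * (B₀ / 2 * n1 q) = 1 / 2 * n1 q := by
      field_simp
    rw [e3]
    linarith
  have hU1 : ν.real (Ici β) ≤ 1 := measureReal_le_one
  refine key.trans ?_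
  have e1 : ε * (β - α) ≤ ε / ν.real (Ici β) * (β - α) := by
    refine mul_le_mul_of_nonneg_right ?_ (by linarith)
    rw [le_div_iff₀ hβ]
    nlinarith
  have e2 : ε * (β - α) / 8 * n1 q ≤ ε / ν.real (Ici β) * (β - α) * ∫ x, N x ∂Q := by
    have e3 : 0 ≤ ε * (β - α) := mul_nonneg hε (by linarith)
    calc ε * (β - α) / 8 * n1 q = (ε * (β - α)) * (1 / 8 * n1 q) := by ring
      _ ≤ (ε * (β - α)) * ∫ x, N x ∂Q := mul_le_mul_of_nonneg_left hNlow e3
      _ ≤ _ := mul_le_mul_of_nonneg_right e1 ((by positivity : 0 ≤ 1 / 8 * n1 q).trans hNlow)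
  show ∫ x, G x ∂Q - _ ≤ ∫ x, G x ∂Q - _
  linarith

/-- at least `n1 q / 2` edges -/
theorem n1_le_two_card0 [IsProbabilityMeasure ν] (hB : 0 < B) (hBB : B ≤ B₀)
    (hν : ν (Ioc 0 B)ᶜ = 0) (R : Finset (Edge d)) (q : V d)
    (hT : ∫ x, T (ext B₀ R x) 0 q ∂(Measure.pi fun _ : R => ν) ≤ B₀ / 2 * n1 q) :
    n1 q ≤ 2 * R.card := by
  classical
  have hB₀ : 0 < B₀ := hB.trans_le hBB
  have hGm : Measurable fun x : R → ℝ => T (ext B₀ R x) 0 q :=
    (measurable_T_cfg 0 q).comp (measurable_ext _ R)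
  have hae : ∀ᵐ x ∂(Measure.pi fun _ : R => ν), ∀ i, x i ∈ Ioc 0 B := ae_set hν
  have hGi : Integrable (fun x : R → ℝ => T (ext B₀ R x) 0 q)
      (Measure.pi fun _ : R => ν) := by
    refine Integrable.of_bound hGm.aestronglyMeasurable (B₀ * n1 q) ?_
    filter_upwards [hae] with x hx
    have h1 := T_ext_bd hB hBB R hx q
    rw [Real.norm_eq_abs, abs_of_nonneg h1.1]
    exact h1.2
  have h1 : ∫ _x, (B₀ * (n1 q - R.card) : ℝ) ∂(Measure.pi fun _ : R => ν) ≤
      ∫ x, T (ext B₀ R x) 0 q ∂(Measure.pi fun _ : R => ν) := by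
    refine integral_mono_ae (integrable_const _) hGi ?_
    filter_upwards [hae] with x hx
    obtain ⟨w, h1, h2, h3, h4, h5⟩ := cnt0 hB hBB R q hx
    have h7 : ((Finset.univ.filter fun i : R => (i : Edge d) ∈ eds 0 w).card : ℝ) ≤ R.card := by
      have h8 := Finset.card_filter_le (Finset.univ : Finset R) (fun i => (i : Edge d) ∈ eds 0 w)
      rw [Finset.card_univ, Fintype.card_coe] at h8
      exact_mod_cast h8
    have h8 : B₀ * (n1 q - R.card) ≤
        B₀ * (w.length - ((Finset.univ.filter fun i : R => (i : Edge d) ∈ eds 0 w).card : ℝ)) :=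
      mul_le_mul_of_nonneg_left (by linarith) hB₀.le
    exact h8.trans h4
  rw [integral_const, probReal_univ, one_smul] at h1
  have h2 := h1.trans hT
  have h3 : B₀ * (n1 q) ≤ B₀ * (2 * R.card) := by nlinarith
  exact le_of_mul_le_mul_left h3 hB₀

/-- the estimate on the finite product -/
theorem gibbs_fin0 [IsProbabilityMeasure ν] (hB : 0 < B) (hBB : B ≤ B₀)
    (hν : ν (Ioc 0 B)ᶜ = 0) {α β K c₁ : ℝ} {n₀ : ℕ} (hαβ : α < β) (hβB : β ≤ B)
    (hα : 0 < ν.real (Ioc 0 α)) (hβ : 1 / 2 ≤ ν.real (Ici β))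
    (hK : (1 / ν.real (Ioc 0 α) + 1 / ν.real (Ici β)) ^ 2 ≤ K)
    (hc0 : 0 < c₁) (hc1 : c₁ ≤ 1 / 8) (hc2 : c₁ * K ≤ (β - α) / 16)
    (R : Finset (Edge d))
    (hbad : (Measure.pi fun _ : R => ν) (badR R β (1 / 4) n₀) ≤ ENNReal.ofReal (1 / 8))
    (q : V d) (hq : (n₀ : ℝ) ≤ n1 q) (hq0 : 0 < n1 q)
    {l : ℝ} (hl0 : 0 < l) (hl1 : l ≤ 1)
    (hT : ∫ x, T (ext B₀ R x) 0 q ∂(Measure.pi fun _ : R => ν) ≤ B₀ / 2 * n1 q) :
    -(l * ∫ x, T (ext B₀ R x) 0 q ∂(Measure.pi fun _ : R => ν)) +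
      c₁ * (β - α) / 16 * (l * n1 q) ^ 2 / R.card ≤
      Real.log (∫ x, Real.exp (-(l * T (ext B₀ R x) 0 q))
        ∂(Measure.pi fun _ : R => ν)) := by
  have hB₀ : 0 < B₀ := hB.trans_le hBB
  have hqR := n1_le_two_card0 hB hBB hν R q hT
  have hR : (0 : ℝ) < R.card := by linarith
  set s : ℝ := (R.card : ℝ) with hs
  set N := n1 q with hN
  set ε := c₁ * (l * N / s) with hε
  have hr : l * N / s ≤ 2 := by
    rw [div_le_iff₀ hR]
    nlinarith
  have hr0 : 0 < l * N / s := by positivity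
  have hε0 : 0 ≤ ε := by positivity
  have hε1 : ε ≤ 1 / 4 := by nlinarith
  have hAU : Disjoint (Ioc 0 α) (Ici β) := by
    rw [Set.disjoint_left]
    rintro t ⟨-, ht⟩ ht'
    have : β ≤ t := ht'
    linarith
  have hβ0 : 0 < ν.real (Ici β) := lt_of_lt_of_le (by norm_num) hβ
  have hφm : Measurable (dn ν (Ioc 0 α) (Ici β) ε) := measurable_dn measurableSet_Ioc
    measurableSet_Ici
  have hb1 := fun t => dn_bds (ν := ν) hAU hα hβ hε0 hε1 t
  have hφ1 := dn_int (ν := ν) (A := Ioc 0 α) (U := Ici β) measurableSet_Ioc measurableSet_Ici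
    hα hβ0 ε
  have hfm : Measurable fun x : R → ℝ => T (ext B₀ R x) 0 q :=
    (measurable_T_cfg 0 q).comp (measurable_ext _ R)
  have hM : ∀ᵐ x ∂(Measure.pi fun _ : R => ν), |T (ext B₀ R x) 0 q| ≤ B₀ * N := by
    filter_upwards [ae_set (ι := R) hν] with x hx
    have h1 := T_ext_bd hB hBB R hx q
    rw [abs_of_nonneg h1.1]
    exact h1.2
  have hg := gibbs (R := R) hφm (by norm_num : (0 : ℝ) < 1 / 2) (fun x => (hb1 x).1)
    (fun x => (hb1 x).2.1) hφ1 hfm hM l
  have he := entropy_le (ν := ν) hφm (by norm_num : (0 : ℝ) < 1 / 2) (fun x => (hb1 x).1)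
    (fun x => (hb1 x).2.1) hφ1
  have hsq : ∫ x, (dn ν (Ioc 0 α) (Ici β) ε x - 1) ^ 2 ∂ν ≤ ε ^ 2 * K := by
    have h1 : ∫ x, (dn ν (Ioc 0 α) (Ici β) ε x - 1) ^ 2 ∂ν ≤ ∫ _x, ε ^ 2 * K ∂ν := by
      refine integral_mono_of_nonneg (ae_of_all _ fun x => sq_nonneg _) (integrable_const _)
        (ae_of_all _ fun x => ?_)
      exact (hb1 x).2.2.trans (mul_le_mul_of_nonneg_left hK (sq_nonneg ε))
    rwa [integral_const, probReal_univ, one_smul] at h1
  have hdrop := drop0 hB hBB hν hαβ hβB hα hβ0 R hbad q hq hT hε0 (hε1.trans (by linarith))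
  rw [Fintype.card_coe, ← hs] at hg
  have h1 : s * ∫ x, dn ν (Ioc 0 α) (Ici β) ε x * Real.log (dn ν (Ioc 0 α) (Ici β) ε x) ∂ν ≤
      s * (ε ^ 2 * K) := mul_le_mul_of_nonneg_left (he.trans hsq) hR.le
  have h2 := mul_le_mul_of_nonneg_left hdrop hl0.le
  have h3 : s * (ε ^ 2 * K) = (c₁ * K) * (c₁ * ((l * N) ^ 2 / s)) := by
    rw [hε]
    field_simp
  have h4 : l * (ε * (β - α) / 8 * N) = c₁ * ((l * N) ^ 2 / s) * ((β - α) / 8) := by
    rw [hε]
    field_simp
  have h5 : (c₁ * K) * (c₁ * ((l * N) ^ 2 / s)) ≤ (β - α) / 16 * (c₁ * ((l * N) ^ 2 / s)) :=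
    mul_le_mul_of_nonneg_right hc2 (by positivity)
  have h6 : c₁ * (β - α) / 16 * (l * N) ^ 2 / s =
      c₁ * ((l * N) ^ 2 / s) * ((β - α) / 8) - (β - α) / 16 * (c₁ * ((l * N) ^ 2 / s)) := by
    ring
  refine le_trans ?_ hg
  rw [h6]
  rw [h3] at h1
  rw [mul_sub, h4] at h2
  linarith

/-- the weights cut off at `B`, and `B₀` off `S` -/
noncomputable def cfB (X : Edge d → Ω → ℝ) (B : ℝ) (ω : Ω) : Edge d → ℝ :=
  fun e => min (X e ω) B

/-- **disorder is relevant on a finite set of edges**, general laws -/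
theorem gibbs_gen (hd : 1 ≤ d) (ν : Measure ℝ) [IsProbabilityMeasure ν] (hat : ∀ x, ν {x} = 0)
    (h0 : ν (Iio 0) = 0) : ∃ c : ℝ, 0 < c ∧
    ∀ {Ω : Type*} [MeasurableSpace Ω] (P : Measure Ω) (X : Edge d → Ω → ℝ), Iid P X ν →
    ∀ (B B₀ : ℝ) (S : Set (Edge d)) (q : V d) (l : ℝ), 1 / c ≤ B → B ≤ B₀ → S.Finite →
      0 < l → l ≤ 1 → 1 / c ≤ n1 q →
      ∫ ω, T (Pool.Agent.Helper51.NP.cut S B₀ (cfB X B ω)) 0 q ∂P ≤ B₀ / 2 * n1 q →
      -(l * ∫ ω, T (Pool.Agent.Helper51.NP.cut S B₀ (cfB X B ω)) 0 q ∂P) +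
        c * (l * n1 q) ^ 2 / S.ncard ≤
        Real.log (∫ ω, Real.exp (-(l * T (Pool.Agent.Helper51.NP.cut S B₀ (cfB X B ω)) 0 q)) ∂P) := by
  classical
  have hd0 : (0 : ℝ) < d := by exact_mod_cast hd
  -- Peierls
  set p : ℝ := min (1 / 2) (((1 / 4 : ℝ) / (4 * d)) ^ (1 / 4 : ℝ)⁻¹) with hp
  have hp0 : 0 < p := lt_min (by norm_num) (by positivity)
  have hp1 : p ≤ 1 / 2 := min_le_left _ _
  obtain ⟨α, β, haα, hαβ, hα, hβ⟩ := exists_quant hat h0 hp0 (by linarith)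
  have h00 : ν (Iic 0) = 0 := by
    have h1 : Iic (0 : ℝ) = Iio 0 ∪ {0} := by
      ext t
      simp [le_iff_lt_or_eq]
    rw [h1]
    exact measure_union_null h0 (hat 0)
  have hα' : ν.real (Ioc 0 α) = ν.real (Iic α) := by
    have h1 : Iic α = Ioc 0 α ∪ Iic 0 := by
      ext t
      simp only [mem_Iic, mem_union, mem_Ioc]
      constructor
      · intro ht
        by_cases h : 0 < t
        · exact Or.inl ⟨h, ht⟩
        · exact Or.inr (not_lt.1 h)
      · rintro (⟨-, h⟩ | h)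
        · exact h
        · exact h.trans haα
    rw [Measure.real, Measure.real, h1]
    congr 1
    refine le_antisymm (measure_mono subset_union_left) ?_
    refine (measure_union_le _ _).trans ?_
    rw [h00, add_zero]
  have hβ' : 1 / 2 ≤ ν.real (Ici β) := by
    have h1 : Ici β = (Iio β)ᶜ := (compl_Iio).symm
    rw [h1, probReal_compl_eq_one_sub measurableSet_Iio]
    linarith
  have hα0 : 0 < ν.real (Ioc 0 α) := by rwa [hα']
  have hβ0 : 0 < ν.real (Ici β) := lt_of_lt_of_le (by norm_num) hβ'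
  have hβpos : 0 < β := haα.trans_lt hαβ
  set K := (1 / ν.real (Ioc 0 α) + 1 / ν.real (Ici β)) ^ 2 with hK
  have hK0 : 0 < K := by positivity
  have hba : 0 < β - α := by linarith
  set c₁ := min (1 / 8) ((β - α) / (16 * K)) with hc₁
  have hc0 : 0 < c₁ := lt_min (by norm_num) (by positivity)
  have hc2 : c₁ * K ≤ (β - α) / 16 := by
    have h1 : c₁ ≤ (β - α) / (16 * K) := min_le_right _ _
    have h2 := mul_le_mul_of_nonneg_right h1 hK0.le
    have h3 : (β - α) / (16 * K) * K = (β - α) / 16 := by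
      field_simp
    rwa [h3] at h2
  set c := min (c₁ * (β - α) / 16) (1 / (2 + β)) with hc
  have hcpos : 0 < c := lt_min (by positivity) (by positivity)
  have hcinv : 2 + β ≤ 1 / c := by
    rw [le_div_iff₀ hcpos]
    have h1 : c ≤ 1 / (2 + β) := min_le_right _ _
    have h2 : (0 : ℝ) < 2 + β := by positivity
    have h3 := mul_le_mul_of_nonneg_left h1 h2.le
    rwa [mul_one_div_cancel h2.ne'] at h3
  refine ⟨c, hcpos, ?_⟩
  intro Ω _ P X hX B B₀ S q l hB hBB hS hl0 hl1 hq1 hq3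
  have hprob := hX.prob
  have hβB : β ≤ B := by linarith
  have hB0 : 0 < B := by linarith
  -- the truncated weights
  have hmf : Measurable fun t : ℝ => min t B := measurable_id.min measurable_const
  have hY := hX.comp hmf
  have hprob' := hY.nu_prob hd
  set ν' := ν.map fun t : ℝ => min t B with hν'
  have e1 : ν'.real (Ioc 0 α) = ν.real (Ioc 0 α) := by
    rw [Measure.real, Measure.real, hν', Measure.map_apply hmf measurableSet_Ioc]
    congr 2
    ext t
    simp only [mem_preimage, mem_Ioc, lt_min_iff, min_le_iff]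
    constructor
    · rintro ⟨⟨h1, h2⟩, h3 | h3⟩
      · exact ⟨h1, h3⟩
      · exact absurd h3 (not_le.2 (hαβ.trans_le hβB))
    · rintro ⟨h1, h2⟩
      exact ⟨⟨h1, hB0⟩, Or.inl h2⟩
  have e2 : ν'.real (Ici β) = ν.real (Ici β) := by
    rw [Measure.real, Measure.real, hν', Measure.map_apply hmf measurableSet_Ici]
    congr 2
    ext t
    simp only [mem_preimage, mem_Ici, le_min_iff]
    exact ⟨fun h => h.1, fun h => ⟨h, hβB⟩⟩
  have e3 : ν' (Ioc 0 B)ᶜ = 0 := by
    rw [hν', Measure.map_apply hmf measurableSet_Ioc.compl]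
    refine measure_mono_null (fun t ht => ?_) h00
    simp only [mem_preimage, mem_compl_iff, mem_Ioc, lt_min_iff, not_and, not_le] at ht
    by_contra hc
    have hc' : 0 < t := not_le.1 hc
    exact absurd (ht ⟨hc', hB0⟩) (fun h => lt_irrefl _ h.2)
  -- Peierls
  have hpei := peierls hX hd (κ := 1 / 4) (t := 1 / 4) (by norm_num) (by norm_num) (by norm_num)
    (hβ.trans (min_le_right _ _)) 0 2
  have hbad : (Measure.pi fun _ : hS.toFinset => ν') (badR hS.toFinset β (1 / 4) 2) ≤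
      ENNReal.ofReal (1 / 8) := by
    refine measure_badR hY hS.toFinset β (1 / 4) 2 ?_
    have h1 : ENNReal.ofReal (2 * (1 / 4) ^ 2) = ENNReal.ofReal (1 / 8) := by norm_num
    rw [h1] at hpei
    refine (measure_mono ?_).trans hpei
    rintro ω ⟨w, h1, h2, h3⟩
    refine ⟨w, h1, h2, h3.trans_le ?_⟩
    have h4 : (eds 0 w).countP (fun e => decide (min (X e ω) B < β)) ≤
        (eds 0 w).countP (fun e => decide (X e ω < β)) := by
      refine List.countP_mono_left fun e _ he => ?_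
      rw [decide_eq_true_eq] at he ⊢
      rcases min_lt_iff.1 he with h5 | h5
      · exact h5
      · exact absurd h5 (not_lt.2 hβB)
    exact_mod_cast h4
  have hcard : (S.ncard : ℝ) = (hS.toFinset.card : ℝ) := by
    rw [Set.ncard_eq_toFinset_card S hS]
  have hfm : Measurable fun x : hS.toFinset → ℝ => T (ext B₀ hS.toFinset x) 0 q :=
    (measurable_T_cfg 0 q).comp (measurable_ext _ _)
  have hmc : ∫ ω, T (Pool.Agent.Helper51.NP.cut S B₀ (cfB X B ω)) 0 q ∂P =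
      ∫ x, T (ext B₀ hS.toFinset x) 0 q ∂(Measure.pi fun _ : hS.toFinset => ν') := by
    rw [← integral_restrict hY hS.toFinset hfm]
    refine integral_congr_ae (ae_of_all _ fun ω => ?_)
    show T _ 0 q = T _ 0 q
    rw [cut_toFinset hS, cut_eq_ext]
    rfl
  have hZc : ∫ ω, Real.exp (-(l * T (Pool.Agent.Helper51.NP.cut S B₀ (cfB X B ω)) 0 q)) ∂P =
      ∫ x, Real.exp (-(l * T (ext B₀ hS.toFinset x) 0 q))
        ∂(Measure.pi fun _ : hS.toFinset => ν') := by
    rw [← integral_restrict hY hS.toFinset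
      (F := fun x => Real.exp (-(l * T (ext B₀ hS.toFinset x) 0 q)))
      (Real.measurable_exp.comp (hfm.const_mul l).neg)]
    refine integral_congr_ae (ae_of_all _ fun ω => ?_)
    show Real.exp (-(l * T _ 0 q)) = Real.exp (-(l * T _ 0 q))
    rw [cut_toFinset hS, cut_eq_ext]
    rfl
  rw [hmc] at hq3 ⊢
  rw [hZc, hcard]
  have hmain := gibbs_fin0 (ν := ν') hB0 hBB e3 hαβ hβB (by rwa [e1]) (by rwa [e2])
    (by rw [e1, e2]) hc0 (min_le_left _ _) hc2 hS.toFinset hbad q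
    (by push_cast; linarith) (by linarith) hl0 hl1 hq3
  refine le_trans ?_ hmain
  have hqR := n1_le_two_card0 hB0 hBB e3 hS.toFinset q hq3
  have hR : (0 : ℝ) < hS.toFinset.card := by linarith
  have h7 : c ≤ c₁ * (β - α) / 16 := min_le_left _ _
  have h8 : c * (l * n1 q) ^ 2 / hS.toFinset.card ≤
      c₁ * (β - α) / 16 * (l * n1 q) ^ 2 / hS.toFinset.card := by
    refine div_le_div_of_nonneg_right ?_ hR.le
    exact mul_le_mul_of_nonneg_right h7 (sq_nonneg _)
  linarith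

end Pool.Agent.Helper59.PB
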