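import Pool.Agent.Helper33.PG.Coup

set_option autoImplicit false

/-!
# The coupling for lowering weights, for an arbitrary set of values (copy of `Helper33/PG/Coup`)
-/

namespace Pool.Agent.Helper59.PB

open MeasureTheory Pool.Agent.Helper33.PG

section

variable {ν : Measure ℝ} [IsProbabilityMeasure ν] {A U : Set ℝ} {c0 θ ε : ℝ}

theorem ae_set {ι : Type*} [Fintype ι] {D : Set ℝ} (hν : ν Dᶜ = 0) :
    ∀ᵐ x ∂(Measure.pi fun _ : ι => ν), ∀ i, x i ∈ D := by
  rw [ae_all_iff]
  intro i
  have h1 : ∀ᵐ t ∂ν, t ∈ D := by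
    rw [ae_iff]
    exact hν
  exact (Measure.quasiMeasurePreserving_eval (fun _ : ι => ν) i).ae h1

open Classical in
/-- **the coupling**: the mean of `G` drops -/
theorem coupling {ι : Type*} [Fintype ι] {α β c0 : ℝ} {D : Set ℝ}
    (hc : c0 ∉ A) (hA : MeasurableSet A)
    (hU : MeasurableSet U) (hAU : Disjoint A U) (hνA : 0 < ν.real A) (hνU : 0 < ν.real U)
    (hε : 0 ≤ ε) (hεU : ε ≤ ν.real U) (hAα : ∀ t ∈ A, t ≤ α) (hUβ : ∀ t ∈ U, β ≤ t)
    (hαβ : α ≤ β) (hAab : A ⊆ D) (hν : ν Dᶜ = 0)
    {G N : (ι → ℝ) → ℝ} (hG : Measurable G) (hN : Measurable N) {C : ℝ}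
    (hGC : ∀ x, (∀ i, x i ∈ D) → |G x| ≤ C)
    (hNC : ∀ x, (∀ i, x i ∈ D) → |N x| ≤ C)
    (w : (ι → ℝ) → Finset ι)
    (hw : ∀ x x', (∀ i, x i ∈ D) → (∀ i, x' i ∈ D) →
      G x' ≤ G x + ∑ i ∈ w x, (x' i - x i))
    (hwN : ∀ x, (∀ i, x i ∈ D) → N x ≤ (((w x).filter (fun i => x i ∈ U)).card : ℝ)) :
    ∫ x, G x ∂(Measure.pi fun _ : ι => ν.withDensity (fun t => ENNReal.ofReal (dn ν A U ε t))) ≤
      ∫ x, G x ∂(Measure.pi fun _ : ι => ν) -
        ε / ν.real U * (β - α) * ∫ x, N x ∂(Measure.pi fun _ : ι => ν) := by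
  have hνA' : ν A ≠ 0 := fun h => by simp [Measure.real, h] at hνA
  have hθ0 : 0 ≤ ε / ν.real U := div_nonneg hε hνU.le
  have hθ1 : ε / ν.real U ≤ 1 := div_le_one_of_le₀ hεU hνU.le
  have hpm := isProb_pm (ν := ν) (θ := ε / ν.real U) hA hc hνA' hθ0 hθ1
  rw [← coup_measure hA hU hAU hνA hνU hε hεU hc]
  set θ := ε / ν.real U with hθ
  set π := pm ν A c0 θ with hπ
  have hFm := measurable_Fm hA hU
  have hFmeas : Measurable (fun q : (ι → ℝ) × (ι → ℝ) => fun i => Fm A U (q.1 i, q.2 i)) := by
    refine measurable_pi_lambda _ fun i => ?_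
    exact hFm.comp (((measurable_pi_apply i).comp measurable_fst).prodMk
      ((measurable_pi_apply i).comp measurable_snd))
  have hFbox : ∀ x z : ι → ℝ, (∀ i, x i ∈ D) → ∀ i, Fm A U (x i, z i) ∈ D := by
    intro x z hx i
    unfold Fm
    split_ifs with h
    · exact hAab h.2
    · exact hx i
  have hbox := ae_set (ι := ι) hν
  -- the pointwise inequality
  have hpt : ∀ x : ι → ℝ, (∀ i, x i ∈ D) →
      ∫ z, G (fun i => Fm A U (x i, z i)) ∂(Measure.pi fun _ : ι => π) ≤
        G x - θ * (β - α) * N x := by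
    intro x hx
    have hm1 : Measurable (fun z : ι → ℝ => G (fun i => Fm A U (x i, z i))) :=
      hG.comp (hFmeas.comp (measurable_const.prodMk measurable_id))
    have hind : ∀ i, ∫ z : ι → ℝ, A.indicator (fun _ => (1 : ℝ)) (z i)
        ∂(Measure.pi fun _ : ι => π) = θ := by
      intro i
      have h1 : (fun z : ι → ℝ => A.indicator (fun _ => (1 : ℝ)) (z i)) =
          ((fun z : ι → ℝ => z i) ⁻¹' A).indicator (fun _ => (1 : ℝ)) := by
        funext z
        by_cases hz : z i ∈ A
        · rw [Set.indicator_of_mem hz, Set.indicator_of_mem (show z ∈ (fun z : ι → ℝ => z i) ⁻¹' A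
            from hz)]
        · rw [Set.indicator_of_notMem hz,
            Set.indicator_of_notMem (show z ∉ (fun z : ι → ℝ => z i) ⁻¹' A from hz)]
      rw [h1, integral_indicator (measurable_pi_apply i hA), setIntegral_const, smul_eq_mul,
        mul_one, Measure.real, (measurePreserving_eval (fun _ : ι => π) i).measure_preimage
          hA.nullMeasurableSet, hπ, pm_A hA hc hνA', ENNReal.toReal_ofReal hθ0]
    have hle : ∀ z : ι → ℝ, G (fun i => Fm A U (x i, z i)) ≤
        G x + ∑ i ∈ (w x).filter (fun i => x i ∈ U),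
          (-(β - α) * A.indicator (fun _ => (1 : ℝ)) (z i)) := by
      intro z
      refine (hw x _ hx (hFbox x z hx)).trans ?_
      rw [Finset.sum_filter]
      gcongr with i hi
      unfold Fm
      by_cases h1 : x i ∈ U
      · by_cases h2 : z i ∈ A
        · simp only [h1, h2, and_self, if_true, Set.indicator_of_mem]
          have h3 := hAα _ h2
          have h4 := hUβ _ h1
          linarith
        · simp [h1, h2]
      · simp [h1]
    have hi1 : Integrable (fun z : ι → ℝ => G (fun i => Fm A U (x i, z i)))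
        (Measure.pi fun _ : ι => π) :=
      Integrable.of_bound hm1.aestronglyMeasurable C
        (Filter.Eventually.of_forall fun z => hGC _ (hFbox x z hx))
    have hi2 : ∀ i, Integrable (fun z : ι → ℝ => -(β - α) * A.indicator (fun _ => (1 : ℝ)) (z i))
        (Measure.pi fun _ : ι => π) := by
      intro i
      refine Integrable.const_mul ?_ _
      refine Integrable.of_bound (C := 1) ?_ (Filter.Eventually.of_forall fun z => ?_)
      · exact ((measurable_const.indicator hA).comp (measurable_pi_apply i)).aestronglyMeasurable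
      · by_cases hz : z i ∈ A
        · simp [hz]
        · simp [hz]
    calc ∫ z, G (fun i => Fm A U (x i, z i)) ∂(Measure.pi fun _ : ι => π)
        ≤ ∫ z : ι → ℝ, (G x + ∑ i ∈ (w x).filter (fun i => x i ∈ U),
          (-(β - α) * A.indicator (fun _ => (1 : ℝ)) (z i))) ∂(Measure.pi fun _ : ι => π) :=
          integral_mono hi1 ((integrable_const _).add (integrable_finsetSum _ fun i _ => hi2 i))
            hle
      _ = G x - θ * (β - α) * ((w x).filter (fun i => x i ∈ U)).card := by
          rw [integral_add (integrable_const _) (integrable_finsetSum _ fun i _ => hi2 i),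
            integral_finsetSum _ (fun i _ => hi2 i), integral_const]
          simp only [integral_const_mul, hind, Finset.sum_const, nsmul_eq_mul, probReal_univ,
            one_smul]
          ring
      _ ≤ G x - θ * (β - α) * N x := by
          have h5 : 0 ≤ θ * (β - α) := mul_nonneg hθ0 (by linarith)
          have := mul_le_mul_of_nonneg_left (hwN x hx) h5
          linarith
  -- Fubini
  have hmG : Measurable (fun q : (ι → ℝ) × (ι → ℝ) => G (fun i => Fm A U (q.1 i, q.2 i))) :=
    hG.comp hFmeas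
  have hiG : Integrable (fun q : (ι → ℝ) × (ι → ℝ) => G (fun i => Fm A U (q.1 i, q.2 i)))
      ((Measure.pi fun _ : ι => ν).prod (Measure.pi fun _ : ι => π)) := by
    refine Integrable.of_bound hmG.aestronglyMeasurable C ?_
    have h1 := (Measure.quasiMeasurePreserving_fst (μ := Measure.pi fun _ : ι => ν)
      (ν := Measure.pi fun _ : ι => π)).ae hbox
    filter_upwards [h1] with q hq
    exact hGC _ (hFbox q.1 q.2 hq)
  have hmp := measurePreserving_arrowProdEquivProdArrow ℝ ℝ ι (fun _ => ν) (fun _ => π)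
  have hpm' : IsProbabilityMeasure ((ν.prod π).map (Fm A U)) :=
    Measure.isProbabilityMeasure_map hFm.aemeasurable
  have hstep : ∫ x, G x ∂(Measure.pi fun _ : ι => (ν.prod π).map (Fm A U)) =
      ∫ x, ∫ z, G (fun i => Fm A U (x i, z i)) ∂(Measure.pi fun _ : ι => π)
        ∂(Measure.pi fun _ : ι => ν) := by
    have hF1 : Measurable (fun (x : ι → ℝ × ℝ) (i : ι) => Fm A U (x i)) :=
      measurable_pi_lambda _ fun i => hFm.comp (measurable_pi_apply i)
    rw [← Measure.pi_map_pi (fun _ : ι => hFm.aemeasurable),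
      integral_map hF1.aemeasurable hG.aestronglyMeasurable,
      ← integral_prod _ hiG, ← hmp.integral_comp' (g := fun q : (ι → ℝ) × (ι → ℝ) =>
        G (fun i => Fm A U (q.1 i, q.2 i)))]
    rfl
  rw [hstep]
  have hiN : Integrable N (Measure.pi fun _ : ι => ν) := by
    refine Integrable.of_bound hN.aestronglyMeasurable C ?_
    filter_upwards [hbox] with x hx
    exact hNC x hx
  have hiG0 : Integrable G (Measure.pi fun _ : ι => ν) := by
    refine Integrable.of_bound hG.aestronglyMeasurable C ?_
    filter_upwards [hbox] with x hx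
    exact hGC x hx
  calc ∫ x, ∫ z, G (fun i => Fm A U (x i, z i)) ∂(Measure.pi fun _ : ι => π)
        ∂(Measure.pi fun _ : ι => ν)
      ≤ ∫ x, (G x - θ * (β - α) * N x) ∂(Measure.pi fun _ : ι => ν) := by
        refine integral_mono_ae hiG.integral_prod_left (hiG0.sub (hiN.const_mul _)) ?_
        filter_upwards [hbox] with x hx
        exact hpt x hx
    _ = _ := by
        rw [integral_sub hiG0 (hiN.const_mul _), integral_const_mul]

end

end Pool.Agent.Helper59.PB
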